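import Pool.Agent.Helper91_Eng.Key

/-!
# Squad ENG: LTN
-/

set_option autoImplicit false

namespace Pool.Agent.Eng.H91

/-- LTN -/
theorem ltn : LtnStmt := by
  intro F K _ _ _ _ _ n c k lam h2F hn hfr hadj hnorm ho hk
  have hq : 2 ≤ Nat.card F := by
    have := Finite.one_lt_card (α := F)
    omega
  have : Finite K := Module.finite_of_finite F
  set q := Nat.card F with hqdef
  have hN : 0 < 2 ^ c := pow_pos (by norm_num) c
  have hcardK : Nat.card K = q ^ n := by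
    rw [Module.natCard_eq_pow_finrank (K := F), hfr]
  -- q is odd
  have hqodd : q % 2 = 1 := by
    have := Fintype.ofFinite F
    have h1 := FiniteField.odd_card_of_char_ne_two (F := F) (by
      intro h
      apply h2F
      have := ringChar.charP F
      rw [h] at this
      exact CharP.cast_eq_zero F 2)
    rw [hqdef, ← Fintype.card_eq_nat_card]
    exact h1
  have hc : c ≠ 0 := by
    rintro rfl
    rw [pow_zero, orderOf_eq_one_iff] at ho
    have h5 : lam ^ (q ^ 1) = lam := by rw [ho, one_pow]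
    have h6 := finrank_dvd_of_pow_eq F K lam hadj 1 h5
    rw [hfr] at h6
    have := Nat.le_of_dvd (by omega) h6
    omega
  obtain ⟨c', rfl⟩ : ∃ c', c = c' + 1 := ⟨c - 1, by omega⟩
  -- n divides 2 ^ c'
  have hcop : Nat.Coprime q (2 ^ (c' + 1)) := by
    apply Nat.Coprime.pow_right
    rw [Nat.coprime_comm, Nat.Prime.coprime_iff_not_dvd Nat.prime_two]
    omega
  have hu : lam ^ (q ^ orderOf (ZMod.unitOfCoprime q hcop)) = lam := by
    apply pow_eq_self_of_dvd K lam q _ _ (by omega) ho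
    have h3 : (ZMod.unitOfCoprime q hcop) ^ (orderOf (ZMod.unitOfCoprime q hcop)) = 1 :=
      pow_orderOf_eq_one _
    have h4 := congrArg (fun u : (ZMod (2 ^ (c' + 1)))ˣ => (u : ZMod (2 ^ (c' + 1)))) h3
    simp only [Units.val_pow_eq_pow_val, ZMod.coe_unitOfCoprime, Units.val_one] at h4
    have h5 : ((q ^ (orderOf (ZMod.unitOfCoprime q hcop)) : ℕ) : ZMod (2 ^ (c' + 1)))
        = ((1 : ℕ) : ZMod (2 ^ (c' + 1))) := by
      push_cast
      exact h4
    rw [ZMod.natCast_eq_natCast_iff] at h5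
    exact (Nat.modEq_iff_dvd' (Nat.one_le_pow _ _ (by omega))).1 h5.symm
  have hdvd1 : n ∣ orderOf (ZMod.unitOfCoprime q hcop) := by
    rw [← hfr]
    exact finrank_dvd_of_pow_eq F K lam hadj _ hu
  have hdvd2 : orderOf (ZMod.unitOfCoprime q hcop) ∣ 2 ^ c' := by
    apply orderOf_dvd_of_pow_eq_one
    have h3 := ZMod.pow_totient (ZMod.unitOfCoprime q hcop)
    rw [Nat.totient_prime_pow_succ Nat.prime_two] at h3
    simpa using h3
  obtain ⟨s, hs1, hs2⟩ := (Nat.dvd_prime_pow Nat.prime_two).1 (hdvd1.trans hdvd2)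
  have hs3 : 2 ≤ s := by
    by_contra h
    have : s = 0 ∨ s = 1 := by omega
    rcases this with rfl | rfl
    · rw [hs2] at hn; norm_num at hn
    · rw [hs2] at hn; norm_num at hn
  obtain ⟨t, rfl⟩ : ∃ t, s = t + 2 := ⟨s - 2, by omega⟩
  have htpos : 1 ≤ 2 ^ t := Nat.one_le_pow _ _ (by norm_num)
  refine ⟨2 * 2 ^ t, by rw [hs2]; ring, by omega, ?_⟩
  set m := 2 * 2 ^ t with hm
  have hn2 : n = 2 * m := by rw [hs2, hm]; ring
  -- norm
  have hpow : lam ^ ((q ^ n - 1) / (q - 1)) = 1 := by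
    have h3 := FiniteField.algebraMap_norm_eq_pow (K := F) (K' := K) (x := lam)
    rw [hnorm, map_one, hcardK, ← hqdef] at h3
    exact h3.symm
  have hd1 : 2 ^ (c' + 1) ∣ (q ^ n - 1) / (q - 1) := by
    rw [← ho]
    exact orderOf_dvd_of_pow_eq_one hpow
  have hqm : 1 ≤ q ^ m := Nat.one_le_pow _ _ (by omega)
  have h3 : q ^ n - 1 = (q ^ m + 1) * (q ^ m - 1) := by
    obtain ⟨u, hu⟩ : ∃ u, q ^ m = u + 1 := ⟨q ^ m - 1, by omega⟩
    have h4 : q ^ n = (u + 1) * (u + 1) := by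
      rw [hn2, two_mul, pow_add, hu]
    rw [h4, hu]
    have h5 : (u + 1) * (u + 1) = (u + 1 + 1) * u + 1 := by ring
    rw [h5]
    simp
  have hdq : q - 1 ∣ q ^ m - 1 := by
    have := Nat.sub_dvd_pow_sub_pow q 1 m
    simpa using this
  rw [h3, Nat.mul_div_assoc _ hdq] at hd1
  set A := (q ^ m - 1) / (q - 1) with hA
  -- q ^ m + 1 = 2 * odd
  have hmod : q ^ m % 4 = 1 := by
    rw [hm, pow_mul, Nat.pow_mod]
    have h4 : q ^ 2 % 4 = 1 := by
      have : q % 4 = 1 ∨ q % 4 = 3 := by omega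
      rcases this with h | h <;> rw [Nat.pow_mod, h]
    rw [h4]
    simp
  obtain ⟨r, hr⟩ : ∃ r, q ^ m + 1 = 2 * (2 * r + 1) := ⟨q ^ m / 4, by omega⟩
  rw [hr, mul_assoc, pow_succ, mul_comm (2 ^ c') 2] at hd1
  have hd2 : 2 ^ c' ∣ (2 * r + 1) * A := Nat.dvd_of_mul_dvd_mul_left (by norm_num) hd1
  have hd3 : 2 ^ c' ∣ A := by
    apply Nat.Coprime.dvd_of_dvd_mul_left _ hd2
    apply Nat.Coprime.pow_left
    rw [Nat.Prime.coprime_iff_not_dvd Nat.prime_two]
    omega
  -- lam ^ (2 ^ c') = -1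
  have hsq : (lam ^ (2 ^ c')) ^ 2 = 1 := by
    rw [← pow_mul, ← pow_succ, ← ho]
    exact pow_orderOf_eq_one lam
  have hne : lam ^ (2 ^ c') ≠ 1 := by
    intro h
    have h4 := orderOf_dvd_of_pow_eq_one h
    rw [ho] at h4
    have h5 := Nat.le_of_dvd (pow_pos (by norm_num) _) h4
    rw [pow_succ] at h5
    have : 0 < 2 ^ c' := pow_pos (by norm_num) _
    omega
  have hneg : lam ^ (2 ^ c') = -1 := by
    have h6 : (lam ^ (2 ^ c') - 1) * (lam ^ (2 ^ c') + 1) = 0 := by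
      have : (lam ^ (2 ^ c') - 1) * (lam ^ (2 ^ c') + 1) = (lam ^ (2 ^ c')) ^ 2 - 1 := by ring
      rw [this, hsq, sub_self]
    rcases mul_eq_zero.1 h6 with h | h
    · exact absurd (sub_eq_zero.1 h) hne
    · exact eq_neg_of_add_eq_zero_left h
  have h4 := hk (2 ^ c') (pow_pos (by norm_num) _) ⟨-1, by rw [hneg, map_neg, map_one]⟩
  exact h4.trans hd3

end Pool.Agent.Eng.H91
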