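import Pool.Agent.Helper6_Eng.Stmts

/-!
# Squad ENG: common facts for LIE and LTN
-/

set_option autoImplicit false

namespace Pool.Agent.Eng.H91

/-- If a generator is fixed by the `j`-th power of Frobenius then the degree divides `j`. -/
theorem finrank_dvd_of_pow_eq (F K : Type) [Field F] [Finite F] [Field K] [Algebra F K]
    [FiniteDimensional F K] (lam : K) (hadj : Algebra.adjoin F {lam} = ⊤) (j : ℕ)
    (h : lam ^ (Nat.card F ^ j) = lam) : Module.finrank F K ∣ j := by
  haveI := Fintype.ofFinite F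
  haveI : Finite K := Module.finite_of_finite F
  rw [← FiniteField.orderOf_frobeniusAlgHom F K]
  apply orderOf_dvd_of_pow_eq_one
  apply AlgHom.ext_of_adjoin_eq_top hadj
  intro x hx
  rw [Set.mem_singleton_iff] at hx
  subst hx
  rw [AlgHom.coe_pow, FiniteField.coe_frobeniusAlgHom, pow_iterate, AlgHom.one_apply]
  rw [Fintype.card_eq_nat_card]
  exact h

/-- The generator is fixed by the `n`-th power of Frobenius. -/
theorem pow_card_pow (F K : Type) [Field F] [Finite F] [Field K] [Algebra F K]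
    [FiniteDimensional F K] (lam : K) (n : ℕ) (hn : Module.finrank F K = n) :
    lam ^ (Nat.card F ^ n) = lam := by
  haveI := Fintype.ofFinite F
  haveI : Finite K := Module.finite_of_finite F
  haveI := Fintype.ofFinite K
  rw [← hn, ← Module.natCard_eq_pow_finrank, ← Fintype.card_eq_nat_card]
  exact FiniteField.pow_card lam

theorem pow_eq_self_of_dvd (K : Type) [Field K] (lam : K) (q j N : ℕ) (hq : 1 ≤ q)
    (ho : orderOf lam = N) (h : N ∣ q ^ j - 1) : lam ^ (q ^ j) = lam := by
  have h1 : 1 ≤ q ^ j := Nat.one_le_pow _ _ hq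
  have h2 : q ^ j = (q ^ j - 1) + 1 := by omega
  rw [h2, pow_succ]
  have h3 : lam ^ (q ^ j - 1) = 1 := by
    rw [← orderOf_dvd_iff_pow_eq_one, ho]
    exact h
  rw [h3, one_mul]

theorem dvd_of_pow_eq_self (K : Type) [Field K] (lam : K) (q j N : ℕ) (hq : 1 ≤ q)
    (hN : 0 < N) (ho : orderOf lam = N) (h : lam ^ (q ^ j) = lam) : N ∣ q ^ j - 1 := by
  have h0 : lam ≠ 0 := by
    intro h0
    have h5 : lam ^ N = 1 := by rw [← ho]; exact pow_orderOf_eq_one lam
    rw [h0, zero_pow (by omega)] at h5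
    exact zero_ne_one h5
  have h1 : 1 ≤ q ^ j := Nat.one_le_pow _ _ hq
  have h2 : q ^ j = (q ^ j - 1) + 1 := by omega
  rw [← ho]
  apply orderOf_dvd_of_pow_eq_one
  rw [h2, pow_succ] at h
  have h3 : lam ^ (q ^ j - 1) * lam = 1 * lam := by rw [h, one_mul]
  exact mul_right_cancel₀ h0 h3

end Pool.Agent.Eng.H91
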