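import Pool.Agent.Helper91_Eng.Key

/-!
# Squad ENG: LIE
-/

set_option autoImplicit false

namespace Pool.Agent.Eng.H91

/-- LIE -/
theorem lie : LieStmt := by
  intro F K _ _ _ _ _ m p c lam hm hfr hadj hp hp2 ho
  have hq : 2 ≤ Nat.card F := by
    have := Finite.one_lt_card (α := F)
    omega
  set q := Nat.card F with hqdef
  have hN : 0 < p ^ c := pow_pos hp.pos c
  have h1 : lam ^ (q ^ (2 * m)) = lam := pow_card_pow F K lam (2 * m) hfr
  have h2 : p ^ c ∣ q ^ (2 * m) - 1 :=
    dvd_of_pow_eq_self K lam q (2 * m) (p ^ c) (by omega) hN ho h1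
  have hqm : 1 ≤ q ^ m := Nat.one_le_pow _ _ (by omega)
  have h3 : q ^ (2 * m) - 1 = (q ^ m + 1) * (q ^ m - 1) := by
    obtain ⟨t, ht⟩ : ∃ t, q ^ m = t + 1 := ⟨q ^ m - 1, by omega⟩
    have : q ^ (2 * m) = (t + 1) * (t + 1) := by
      rw [two_mul, pow_add, ht]
    rw [this, ht]
    have h4 : (t + 1) * (t + 1) = (t + 1 + 1) * t + 1 := by ring
    rw [h4]
    simp
  rw [h3] at h2
  have hnot : ¬ p ^ c ∣ q ^ m - 1 := by
    intro hd
    have h5 := pow_eq_self_of_dvd K lam q m (p ^ c) (by omega) ho hd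
    have h6 := finrank_dvd_of_pow_eq F K lam hadj m h5
    rw [hfr] at h6
    have := Nat.le_of_dvd (by omega) h6
    omega
  have hc : c ≠ 0 := by
    rintro rfl
    apply hnot
    rw [pow_zero]
    exact one_dvd _
  have hcop : Nat.Coprime (p ^ c) (q ^ m - 1) ∨ Nat.Coprime (p ^ c) (q ^ m + 1) := by
    by_cases hd : p ∣ q ^ m - 1
    · right
      apply Nat.Coprime.pow_left
      rw [Nat.Prime.coprime_iff_not_dvd hp]
      intro hd2
      have h7 : p ∣ (q ^ m + 1) - (q ^ m - 1) := Nat.dvd_sub hd2 hd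
      have h8 : (q ^ m + 1) - (q ^ m - 1) = 2 := by omega
      rw [h8] at h7
      have h9 := (Nat.prime_dvd_prime_iff_eq hp Nat.prime_two).1 h7
      exact hp2 h9
    · left
      apply Nat.Coprime.pow_left
      rw [Nat.Prime.coprime_iff_not_dvd hp]
      exact hd
  refine ⟨?_, ?_⟩
  · rcases hcop with hcop | hcop
    · exact Nat.Coprime.dvd_of_dvd_mul_right hcop h2
    · exact absurd (Nat.Coprime.dvd_of_dvd_mul_left hcop h2) hnot
  · rintro ⟨h3c, h20⟩
    have h5 : lam ^ (q ^ 2) = lam := by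
      apply pow_eq_self_of_dvd K lam q 2 (p ^ c) (by omega) ho
      rw [h3c]
      have hq2 : ∃ a, q = 2 ^ a := by
        haveI : CharP F 2 := by
          haveI := Fact.mk Nat.prime_two
          exact CharTwo.of_one_ne_zero_of_two_eq_zero one_ne_zero h20
        haveI := Fintype.ofFinite F
        obtain ⟨n, _, hn⟩ := FiniteField.card F 2
        exact ⟨n, by rw [hqdef, ← Fintype.card_eq_nat_card, hn]⟩
      obtain ⟨a, ha⟩ := hq2
      have hmod : q ^ 2 % 3 = 1 := by
        rw [ha, ← pow_mul, mul_comm, pow_mul]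
        rw [Nat.pow_mod]
        norm_num
      omega
    have h6 := finrank_dvd_of_pow_eq F K lam hadj 2 h5
    rw [hfr] at h6
    have := Nat.le_of_dvd (by omega) h6
    omega

end Pool.Agent.Eng.H91
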